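import Mathlib
import Pool.Agent.Lib.MP_6489b8_al.A.Check

/-!
# The rewriting calculus with hashes that do not see the letters

A variant of `A.Calc` in which the letters 1, 2, ... have the same hash.  It is used for
alternating sums.
-/

namespace MP6489b8

namespace AS

/-- Terms; the first field of a constructor is a hash. -/
inductive T
  | v (n : ℕ)
  | m (k : ℕ) (a b : T)
  | d (k : ℕ) (a : T)
  | x (k : ℕ) (a b : T)
  | s (k : ℕ) (a b c : T)
  | f (k : ℕ) (a b c e : T)

/-- The hash of a term. -/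
noncomputable def T.key (t : T) : ℕ :=
  @T.casesOn (fun _ => ℕ) t (fun n => @Nat.rec (fun _ => ℕ) 1 (fun _ _ => 2) n) (fun k _ _ => k) (fun k _ => k)
    (fun k _ _ => k) (fun k _ _ _ => k) (fun k _ _ _ _ => k)

/-- A hash function. -/
def hs (c a b : ℕ) : ℕ :=
  Nat.mod (Nat.pow (Nat.add (Nat.add (Nat.mul a 2862933555777941757) b) c) 3)
    2305843009213693951

noncomputable def mkM (a b : T) : T := .m (hs 982451653123457 a.key b.key) a b
noncomputable def mkD (a : T) : T := .d (hs 715827883987651 a.key 5) a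
noncomputable def mkX (a b : T) : T := .x (hs 1234567899876543 a.key b.key) a b
noncomputable def mkS (a b c : T) : T := .s (hs 567834523452345 a.key (hs 3453453453451 b.key c.key)) a b c
noncomputable def mkF (a b c e : T) : T :=
  .f (hs 8756785623413 (hs 45634563456111 a.key b.key) (hs 3456345656345 c.key e.key)) a b c e

/-- Structural equality, ignoring the hashes. -/
def T.beq : T → T → Bool
  | .v n, .v k => Nat.beq n k
  | .m _ a b, .m _ a' b' => T.beq a a' && T.beq b b'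
  | .d _ a, .d _ a' => T.beq a a'
  | .x _ a b, .x _ a' b' => T.beq a a' && T.beq b b'
  | .s _ a b c, .s _ a' b' c' => T.beq a a' && (T.beq b b' && T.beq c c')
  | .f _ a b c e, .f _ a' b' c' e' => T.beq a a' && (T.beq b b' && (T.beq c c' && T.beq e e'))
  | _, _ => false

section Ev

variable {A : Type*} [NonUnitalNonAssocRing A] (ρ : ℕ → A) (y : A)

/-- Value of a term. -/
def T.ev : T → A
  | .v n => ρ n
  | .m _ a b => T.ev a * T.ev b
  | .d _ a => com (T.ev a) y
  | .x _ a b => asr (T.ev a) (T.ev b) y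
  | .s _ a b c => asr (T.ev a) (T.ev b) (T.ev c)
  | .f _ a b c e => kl (T.ev a) (T.ev b) (T.ev c) (T.ev e)

theorem T.ev_of_beq : ∀ {s t : T}, T.beq s t = true → s.ev ρ y = t.ev ρ y
  | .v n, .v k, h => by
    simp only [T.beq] at h
    rw [Nat.eq_of_beq_eq_true h]
  | .m _ a b, .m _ a' b', h => by
    simp only [T.beq, Bool.and_eq_true] at h
    rw [T.ev, T.ev, T.ev_of_beq h.1, T.ev_of_beq h.2]
  | .d _ a, .d _ a', h => by
    simp only [T.beq] at h
    rw [T.ev, T.ev, T.ev_of_beq h]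
  | .x _ a b, .x _ a' b', h => by
    simp only [T.beq, Bool.and_eq_true] at h
    rw [T.ev, T.ev, T.ev_of_beq h.1, T.ev_of_beq h.2]
  | .s _ a b c, .s _ a' b' c', h => by
    simp only [T.beq, Bool.and_eq_true] at h
    rw [T.ev, T.ev, T.ev_of_beq h.1, T.ev_of_beq h.2.1, T.ev_of_beq h.2.2]
  | .f _ a b c e, .f _ a' b' c' e', h => by
    simp only [T.beq, Bool.and_eq_true] at h
    rw [T.ev, T.ev, T.ev_of_beq h.1, T.ev_of_beq h.2.1, T.ev_of_beq h.2.2.1,
      T.ev_of_beq h.2.2.2]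
  | .v _, .m _ _ _, h | .v _, .d _ _, h | .v _, .x _ _ _, h | .v _, .s _ _ _ _, h
  | .v _, .f _ _ _ _ _, h => by simp [T.beq] at h
  | .m _ _ _, .v _, h | .m _ _ _, .d _ _, h | .m _ _ _, .x _ _ _, h | .m _ _ _, .s _ _ _ _, h
  | .m _ _ _, .f _ _ _ _ _, h => by simp [T.beq] at h
  | .d _ _, .v _, h | .d _ _, .m _ _ _, h | .d _ _, .x _ _ _, h | .d _ _, .s _ _ _ _, h
  | .d _ _, .f _ _ _ _ _, h => by simp [T.beq] at h
  | .x _ _ _, .v _, h | .x _ _ _, .m _ _ _, h | .x _ _ _, .d _ _, h | .x _ _ _, .s _ _ _ _, h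
  | .x _ _ _, .f _ _ _ _ _, h => by simp [T.beq] at h
  | .s _ _ _ _, .v _, h | .s _ _ _ _, .m _ _ _, h | .s _ _ _ _, .d _ _, h
  | .s _ _ _ _, .x _ _ _, h | .s _ _ _ _, .f _ _ _ _ _, h => by simp [T.beq] at h
  | .f _ _ _ _ _, .v _, h | .f _ _ _ _ _, .m _ _ _, h | .f _ _ _ _ _, .d _ _, h
  | .f _ _ _ _ _, .x _ _ _, h | .f _ _ _ _ _, .s _ _ _ _, h => by simp [T.beq] at h

end Ev

/-- Linear combinations. -/
inductive P
  | nil
  | cons (c : ℤ) (t : T) (l : P)

/-- Value of a linear combination. -/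
def P.ev {A : Type*} [NonUnitalNonAssocRing A] (ρ : ℕ → A) (y : A) : P → A
  | .nil => 0
  | .cons c t l => c • t.ev ρ y + P.ev ρ y l

noncomputable def app (p q : P) : P := @P.rec (fun _ => P) q (fun c t _ ih => .cons c t ih) p

noncomputable def sm (k : ℤ) (p : P) : P :=
  @P.rec (fun _ => P) .nil (fun c t _ ih => .cons (Int.mul k c) t ih) p

noncomputable def mapM (a : T) (p : P) : P :=
  @P.rec (fun _ => P) .nil (fun c t _ ih => .cons c (mkM a t) ih) p

/-- Substitution of a linear combination into a linear map. -/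
noncomputable def bind (p : P) (f : T → P) : P :=
  @P.rec (fun _ => P) .nil (fun c t _ ih => app (sm c (f t)) ih) p

def one (t : T) : P := .cons 1 t .nil

section Ev

variable {A : Type*} [NonUnitalNonAssocRing A] (ρ : ℕ → A) (y : A)

theorem ev_app (p q : P) : (app p q).ev ρ y = p.ev ρ y + q.ev ρ y := by
  induction p with
  | nil => exact (zero_add _).symm
  | cons c t l ih =>
    change c • t.ev ρ y + (app l q).ev ρ y = _
    rw [ih, P.ev, add_assoc]

theorem ev_sm (k : ℤ) (p : P) : (sm k p).ev ρ y = k • p.ev ρ y := by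
  induction p with
  | nil => exact (smul_zero _).symm
  | cons c t l ih =>
    change (k * c) • t.ev ρ y + (sm k l).ev ρ y = _
    rw [ih, P.ev, smul_add, mul_smul]

theorem ev_one (t : T) : (one t).ev ρ y = t.ev ρ y := by
  simp [one, P.ev]

theorem ev_mapM (a : T) (p : P) : (mapM a p).ev ρ y = a.ev ρ y * p.ev ρ y := by
  induction p with
  | nil => exact (mul_zero _).symm
  | cons c t l ih =>
    change c • (a.ev ρ y * t.ev ρ y) + (mapM a l).ev ρ y = _
    rw [ih, P.ev, mul_add, mul_smul_comm]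

/-- If `f` represents an additive map `φ` then so does `bind`. -/
theorem ev_bind (p : P) (f : T → P) (φ : A →+ A) (h : ∀ t, (f t).ev ρ y = φ (t.ev ρ y)) :
    (bind p f).ev ρ y = φ (p.ev ρ y) := by
  induction p with
  | nil => exact (map_zero φ).symm
  | cons c t l ih =>
    change (app (sm c (f t)) (bind l f)).ev ρ y = _
    rw [ev_app, ev_sm, h, ih, P.ev, map_add, map_zsmul]

end Ev

/-- Compare and exchange. -/
noncomputable def cx {α : Sort*} (u v : T) (f g : α) : α :=
  @Bool.rec (fun _ => α) g f (Nat.ble u.key v.key)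

/-- Equality of terms (with a quick test on the hashes). -/
noncomputable def teq (u v : T) : Bool :=
  @Bool.rec (fun _ => Bool) false (T.beq u v) (Nat.beq u.key v.key)

theorem cx_eq {α : Sort*} (u v : T) (f g : α) {p : α → Prop} (hf : p f) (hg : p g) :
    p (cx u v f g) := by
  unfold cx
  cases Nat.ble u.key v.key
  · exact hg
  · exact hf

theorem ev_of_teq {A : Type*} [NonUnitalNonAssocRing A] (ρ : ℕ → A) (y : A) {u v : T}
    (h : teq u v = true) : u.ev ρ y = v.ev ρ y := by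
  apply T.ev_of_beq
  unfold teq at h
  cases h2 : Nat.beq u.key v.key
  · rw [h2] at h; exact absurd h (by simp)
  · rw [h2] at h; exact h

section Sorting

/-- Final step: check for equal neighbours. -/
noncomputable def fX (c : ℤ) (u v : T) : P :=
  @Bool.rec (fun _ => P) (.cons c (mkX u v) .nil) .nil (teq u v)
noncomputable def fS (c : ℤ) (u v w : T) : P :=
  @Bool.rec (fun _ => P) (@Bool.rec (fun _ => P) (.cons c (mkS u v w) .nil) .nil (teq v w))
    .nil (teq u v)
noncomputable def fF (c : ℤ) (u v w z : T) : P :=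
  @Bool.rec (fun _ => P) (@Bool.rec (fun _ => P) (@Bool.rec (fun _ => P)
    (.cons c (mkF u v w z) .nil) .nil (teq w z)) .nil (teq v w)) .nil (teq u v)

noncomputable def sX (u v : T) : P := cx u v (fX 1 u v) (fX (-1) v u)

noncomputable def s12 (k : ℤ → T → T → T → P) (c : ℤ) (u v w : T) : P :=
  cx u v (k c u v w) (k (Int.neg c) v u w)
noncomputable def s23 (k : ℤ → T → T → T → P) (c : ℤ) (u v w : T) : P :=
  cx v w (k c u v w) (k (Int.neg c) u w v)
noncomputable def sS (u v w : T) : P := s12 (s23 (s12 fS)) 1 u v w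

noncomputable def f12 (k : ℤ → T → T → T → T → P) (c : ℤ) (u v w z : T) : P :=
  cx u v (k c u v w z) (k (Int.neg c) v u w z)
noncomputable def f23 (k : ℤ → T → T → T → T → P) (c : ℤ) (u v w z : T) : P :=
  cx v w (k c u v w z) (k (Int.neg c) u w v z)
noncomputable def f34 (k : ℤ → T → T → T → T → P) (c : ℤ) (u v w z : T) : P :=
  cx w z (k c u v w z) (k (Int.neg c) u v z w)
noncomputable def sF (u v w z : T) : P := f12 (f23 (f34 (f12 (f23 (f12 fF))))) 1 u v w z

variable {A : Type*} [NonUnitalNonAssocRing A] (hA : IsAlt A) (ρ : ℕ → A) (y : A)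
include hA

theorem ev_fX (c : ℤ) (u v : T) : (fX c u v).ev ρ y = c • asr (u.ev ρ y) (v.ev ρ y) y := by
  unfold fX
  cases h : teq u v with
  | false => simp [P.ev, mkX, T.ev]
  | true => rw [ev_of_teq ρ y h, asr_self_left hA, smul_zero]; rfl

theorem ev_fS (c : ℤ) (u v w : T) :
    (fS c u v w).ev ρ y = c • asr (u.ev ρ y) (v.ev ρ y) (w.ev ρ y) := by
  unfold fS
  cases h : teq u v with
  | false =>
    cases h2 : teq v w with
    | false => simp [P.ev, mkS, T.ev]
    | true => rw [ev_of_teq ρ y h2, asr_self_right hA, smul_zero]; rfl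
  | true => rw [ev_of_teq ρ y h, asr_self_left hA, smul_zero]; rfl

theorem ev_fF (c : ℤ) (u v w z : T) :
    (fF c u v w z).ev ρ y = c • kl (u.ev ρ y) (v.ev ρ y) (w.ev ρ y) (z.ev ρ y) := by
  unfold fF
  cases h : teq u v with
  | false =>
    cases h2 : teq v w with
    | false =>
      cases h3 : teq w z with
      | false => simp [P.ev, mkF, T.ev]
      | true => rw [ev_of_teq ρ y h3, kl_self34 hA, smul_zero]; rfl
    | true => rw [ev_of_teq ρ y h2, kl_self23 hA, smul_zero]; rfl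
  | true => rw [ev_of_teq ρ y h, kl_self12 hA, smul_zero]; rfl

theorem ev_sX (u v : T) : (sX u v).ev ρ y = asr (u.ev ρ y) (v.ev ρ y) y := by
  unfold sX
  refine cx_eq u v _ _ (p := fun q => P.ev ρ y q = _) ?_ ?_
  · rw [ev_fX hA, one_smul]
  · rw [ev_fX hA, asr_sw12 hA (v.ev ρ y), neg_smul, one_smul, neg_neg]

omit hA in
theorem neg_smul' (c : ℤ) (a b : A) (h : a = -b) : c • a = (Int.neg c) • b := by
  rw [h, smul_neg, ← neg_smul]; rfl

theorem ev_s12 (k : ℤ → T → T → T → P)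
    (hk : ∀ c u v w, (k c u v w).ev ρ y = c • asr (u.ev ρ y) (v.ev ρ y) (w.ev ρ y))
    (c : ℤ) (u v w : T) :
    (s12 k c u v w).ev ρ y = c • asr (u.ev ρ y) (v.ev ρ y) (w.ev ρ y) := by
  unfold s12
  refine cx_eq u v _ _ (p := fun q => P.ev ρ y q = _) ?_ ?_
  · exact hk _ _ _ _
  · rw [hk]; exact (neg_smul' _ _ _ (asr_sw12 hA _ _ _)).symm

theorem ev_s23 (k : ℤ → T → T → T → P)
    (hk : ∀ c u v w, (k c u v w).ev ρ y = c • asr (u.ev ρ y) (v.ev ρ y) (w.ev ρ y))
    (c : ℤ) (u v w : T) :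
    (s23 k c u v w).ev ρ y = c • asr (u.ev ρ y) (v.ev ρ y) (w.ev ρ y) := by
  unfold s23
  refine cx_eq v w _ _ (p := fun q => P.ev ρ y q = _) ?_ ?_
  · exact hk _ _ _ _
  · rw [hk]; exact (neg_smul' _ _ _ (asr_sw23 hA _ _ _)).symm

theorem ev_sS (u v w : T) : (sS u v w).ev ρ y = asr (u.ev ρ y) (v.ev ρ y) (w.ev ρ y) := by
  unfold sS
  rw [ev_s12 hA ρ y _ (ev_s23 hA ρ y _ (ev_s12 hA ρ y _ (ev_fS hA ρ y))), one_smul]

theorem ev_f12 (k : ℤ → T → T → T → T → P)
    (hk : ∀ c u v w z, (k c u v w z).ev ρ y =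
      c • kl (u.ev ρ y) (v.ev ρ y) (w.ev ρ y) (z.ev ρ y))
    (c : ℤ) (u v w z : T) :
    (f12 k c u v w z).ev ρ y = c • kl (u.ev ρ y) (v.ev ρ y) (w.ev ρ y) (z.ev ρ y) := by
  unfold f12
  refine cx_eq u v _ _ (p := fun q => P.ev ρ y q = _) ?_ ?_
  · exact hk _ _ _ _ _
  · rw [hk]; exact (neg_smul' _ _ _ (kl_sw12 hA _ _ _ _)).symm

theorem ev_f23 (k : ℤ → T → T → T → T → P)
    (hk : ∀ c u v w z, (k c u v w z).ev ρ y =
      c • kl (u.ev ρ y) (v.ev ρ y) (w.ev ρ y) (z.ev ρ y))
    (c : ℤ) (u v w z : T) :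
    (f23 k c u v w z).ev ρ y = c • kl (u.ev ρ y) (v.ev ρ y) (w.ev ρ y) (z.ev ρ y) := by
  unfold f23
  refine cx_eq v w _ _ (p := fun q => P.ev ρ y q = _) ?_ ?_
  · exact hk _ _ _ _ _
  · rw [hk]; exact (neg_smul' _ _ _ (kl_sw23 hA _ _ _ _)).symm

theorem ev_f34 (k : ℤ → T → T → T → T → P)
    (hk : ∀ c u v w z, (k c u v w z).ev ρ y =
      c • kl (u.ev ρ y) (v.ev ρ y) (w.ev ρ y) (z.ev ρ y))
    (c : ℤ) (u v w z : T) :
    (f34 k c u v w z).ev ρ y = c • kl (u.ev ρ y) (v.ev ρ y) (w.ev ρ y) (z.ev ρ y) := by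
  unfold f34
  refine cx_eq w z _ _ (p := fun q => P.ev ρ y q = _) ?_ ?_
  · exact hk _ _ _ _ _
  · rw [hk]; exact (neg_smul' _ _ _ (kl_sw34 hA _ _ _ _)).symm

theorem ev_sF (u v w z : T) :
    (sF u v w z).ev ρ y = kl (u.ev ρ y) (v.ev ρ y) (w.ev ρ y) (z.ev ρ y) := by
  unfold sF
  rw [ev_f12 hA ρ y _ (ev_f23 hA ρ y _ (ev_f34 hA ρ y _ (ev_f12 hA ρ y _ (ev_f23 hA ρ y _
    (ev_f12 hA ρ y _ (ev_fF hA ρ y)))))), one_smul]

end Sorting

/-- The basic operations on terms. -/
structure Fns where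
  mul : T → T → P
  asc : T → T → T → P
  d : T → P
  x : T → T → P

/-- Case distinction: product or not. -/
noncomputable def cM {α : Sort*} (u : T) (f : T → T → α) (g : α) : α :=
  @T.casesOn (fun _ => α) u (fun _ => g) (fun _ a b => f a b) (fun _ _ => g)
    (fun _ _ _ => g) (fun _ _ _ _ => g) (fun _ _ _ _ _ => g)

/-- Case distinction: `[a,y]` or not. -/
noncomputable def cD {α : Sort*} (u : T) (f : T → α) (g : α) : α :=
  @T.casesOn (fun _ => α) u (fun _ => g) (fun _ _ _ => g) (fun _ a => f a)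
    (fun _ _ _ => g) (fun _ _ _ _ => g) (fun _ _ _ _ _ => g)

/-- One more level of rewriting. -/
noncomputable def step (F : Fns) : Fns where
  mul u v := cM u (fun a u1 => app (mapM a (F.mul u1 v)) (F.asc a u1 v)) (one (mkM u v))
  asc u v w := cM u
    (fun a b => app (bind (F.asc a v w) (fun t => F.mul b t))
      (app (bind (F.asc b v w) (fun t => F.mul t a)) (sF a b v w)))
    (cM v (fun _ _ => sm (-1) (F.asc v u w)) (cM w (fun _ _ => F.asc w u v) (sS u v w)))
  d u := cM u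
    (fun a b => app (bind (F.d a) (fun t => F.mul t b))
      (app (bind (F.d b) (fun t => F.mul a t)) (sm 3 (F.x a b))))
    (one (mkD u))
  x u c := cM u
    (fun a b => app (bind (F.x b c) (fun t => F.mul a t))
      (app (bind (F.x a c) (fun t => F.mul t b)) (sm (-1) (bind (F.d c) (fun t => F.asc t a b)))))
    (cM c (fun _ _ => sm (-1) (F.x c u))
      (cD u (fun u' => sm (-1) (bind (F.x u' c) F.d))
        (cD c (fun c' => sm (-1) (bind (F.x u c') F.d)) (sX u c))))

/-- No rewriting. -/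
noncomputable def base : Fns where
  mul u v := one (mkM u v)
  asc u v w := one (mkS u v w)
  d u := one (mkD u)
  x u v := one (mkX u v)

/-- The operations with fuel `n`. -/
noncomputable def fns (n : ℕ) : Fns := @Nat.rec (fun _ => Fns) base (fun _ F => step F) n

section Sound

variable {A : Type*} [NonUnitalNonAssocRing A] (ρ : ℕ → A) (y : A)

/-- Soundness of the operations. -/
structure Sound (F : Fns) : Prop where
  mul : ∀ u v, (F.mul u v).ev ρ y = u.ev ρ y * v.ev ρ y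
  asc : ∀ u v w, (F.asc u v w).ev ρ y = asr (u.ev ρ y) (v.ev ρ y) (w.ev ρ y)
  d : ∀ u, (F.d u).ev ρ y = com (u.ev ρ y) y
  x : ∀ u v, (F.x u v).ev ρ y = asr (u.ev ρ y) (v.ev ρ y) y

theorem sound_base : Sound ρ y base where
  mul u v := ev_one ρ y _
  asc u v w := ev_one ρ y _
  d u := ev_one ρ y _
  x u v := ev_one ρ y _

variable {ρ y}

theorem cM_eq {α : Sort*} {u : T} {f : T → T → α} {g : α} {p : α → Prop}
    (hf : ∀ k a b, u = .m k a b → p (f a b)) (hg : p g) : p (cM u f g) := by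
  cases u with
  | m k a b => exact hf k a b rfl
  | v n => exact hg
  | d k a => exact hg
  | x k a b => exact hg
  | s k a b c => exact hg
  | f k a b c e => exact hg

theorem cD_eq {α : Sort*} {u : T} {f : T → α} {g : α} {p : α → Prop}
    (hf : ∀ k a, u = .d k a → p (f a)) (hg : p g) : p (cD u f g) := by
  cases u with
  | m k a b => exact hg
  | v n => exact hg
  | d k a => exact hf k a rfl
  | x k a b => exact hg
  | s k a b c => exact hg
  | f k a b c e => exact hg

theorem sound_step (hA : IsAlt A) {F : Fns} (h : Sound ρ y F) : Sound ρ y (step F) where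
  mul u v := by
    refine cM_eq (p := fun q => P.ev ρ y q = T.ev ρ y u * v.ev ρ y) ?_ (ev_one ρ y _)
    intro k a b hu
    rw [ev_app, ev_mapM, h.mul, h.asc, hu, T.ev, asr]
    abel
  asc u v w := by
    refine cM_eq (p := fun q => P.ev ρ y q = asr (T.ev ρ y u) (v.ev ρ y) (w.ev ρ y)) ?_ ?_
    · intro k a b hu
      rw [ev_app, ev_app, ev_bind ρ y _ _ (AC.addL (b.ev ρ y)) (fun t => h.mul _ _),
        ev_bind ρ y _ _ (AC.addR (a.ev ρ y)) (fun t => h.mul _ _), h.asc, h.asc, ev_sF hA, hu, T.ev]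
      change b.ev ρ y * asr (a.ev ρ y) (v.ev ρ y) (w.ev ρ y) +
        (asr (b.ev ρ y) (v.ev ρ y) (w.ev ρ y) * a.ev ρ y + _) = _
      rw [kl]; abel
    · refine cM_eq (p := fun q => P.ev ρ y q = asr (u.ev ρ y) (v.ev ρ y) (w.ev ρ y)) ?_ ?_
      · intro k a b _
        rw [ev_sm, h.asc, asr_sw12 hA (u.ev ρ y), neg_smul, one_smul]
      · refine cM_eq (p := fun q => P.ev ρ y q = asr (u.ev ρ y) (v.ev ρ y) (w.ev ρ y)) ?_ ?_
        · intro k a b _
          rw [h.asc, ← asr_cyc' hA]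
        · exact ev_sS hA ρ y u v w
  d u := by
    refine cM_eq (p := fun q => P.ev ρ y q = com (T.ev ρ y u) y) ?_ (ev_one ρ y _)
    intro k a b hu
    rw [ev_app, ev_app, ev_bind ρ y _ _ (AC.addR (b.ev ρ y)) (fun t => h.mul _ _),
      ev_bind ρ y _ _ (AC.addL (a.ev ρ y)) (fun t => h.mul _ _), h.d, h.d, ev_sm, h.x, hu, T.ev,
      com_mul_y hA]
    change com (a.ev ρ y) y * b.ev ρ y + (a.ev ρ y * com (b.ev ρ y) y + _) = _
    rw [← Nat.cast_smul_eq_nsmul ℤ, add_assoc]; rfl
  x u c := by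
    refine cM_eq (p := fun q => P.ev ρ y q = asr (T.ev ρ y u) (c.ev ρ y) y) ?_ ?_
    · intro k a b hu
      rw [ev_app, ev_app, ev_bind ρ y _ _ (AC.addL (a.ev ρ y)) (fun t => h.mul _ _),
        ev_bind ρ y _ _ (AC.addR (b.ev ρ y)) (fun t => h.mul _ _), h.x, h.x, ev_sm,
        ev_bind ρ y _ _ (AC.addS (a.ev ρ y) (b.ev ρ y)) (fun t => h.asc _ _ _), h.d, hu, T.ev,
        asr_mul hA]
      change a.ev ρ y * asr (b.ev ρ y) (c.ev ρ y) y + (asr (a.ev ρ y) (c.ev ρ y) y * b.ev ρ y +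
        (-1 : ℤ) • asr (com (c.ev ρ y) y) (a.ev ρ y) (b.ev ρ y)) = _
      rw [neg_smul, one_smul]; abel
    · refine cM_eq (p := fun q => P.ev ρ y q = asr (u.ev ρ y) (T.ev ρ y c) y) ?_ ?_
      · intro k a b _
        rw [ev_sm, h.x, asr_sw12 hA (u.ev ρ y), neg_smul, one_smul]
      · refine cD_eq (p := fun q => P.ev ρ y q = asr (T.ev ρ y u) (c.ev ρ y) y) ?_ ?_
        · intro k a hu
          rw [ev_sm, ev_bind ρ y _ _ (AC.addD y) (fun t => h.d _), h.x, hu, T.ev,
            asr_sw12 hA (com _ _), asr_com hA, asr_sw12 hA (c.ev ρ y) (a.ev ρ y), com_neg_left,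
            neg_neg, neg_smul, one_smul]
          rfl
        · refine cD_eq (p := fun q => P.ev ρ y q = asr (u.ev ρ y) (T.ev ρ y c) y) ?_ ?_
          · intro k a hc
            rw [ev_sm, ev_bind ρ y _ _ (AC.addD y) (fun t => h.d _), h.x, hc, T.ev, asr_com hA,
              neg_smul, one_smul]
            rfl
          · exact ev_sX hA ρ y u c

theorem sound_fns (hA : IsAlt A) (n : ℕ) : Sound ρ y (fns n) := by
  induction n with
  | zero => exact sound_base ρ y
  | succ n ih => exact sound_step hA ih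

end Sound

end AS

end MP6489b8
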