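import Mathlib
import Pool.Agent.Lib.MP_6489b8_al.S.Calc
import Pool.Agent.Lib.MP_6489b8_al.A.Perm

/-!
# Certificates for alternating sums over four letters

The alternating sum over the letters 1, 2, 3, 4 of an expression is computed from one of its 24
terms: the letters of a normal form are renumbered in the order in which they are read, at the
cost of the sign of the permutation.
-/

namespace MP6489b8

namespace AS

/-- Normal form of an expression. -/
noncomputable def norm (F : Fns) (e : AC.E) : P :=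
  @AC.E.rec (fun _ => P) (fun n => one (.v n))
    (fun _ _ a b => bind a (fun t => bind b (fun u => F.mul t u)))
    (fun _ a => bind a (fun t => F.d t))
    (fun _ _ a b => bind a (fun t => bind b (fun u => F.x t u)))
    (fun _ _ _ a b c => bind a (fun t => bind b (fun u => bind c (fun w => F.asc t u w))))
    (fun _ _ _ _ a b c e => bind a (fun t => bind b (fun u => bind c (fun w =>
      bind e (fun z => sF t u w z)))))
    (fun _ _ a b => app a b)
    (fun _ _ a b => app a (sm (-1) b))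
    (fun k _ a => sm k a) e


section Ev

variable {A : Type*} [NonUnitalNonAssocRing A] {ρ : ℕ → A} {y : A}

theorem ev_norm (hA : IsAlt A) {F : Fns} (h : Sound ρ y F) (e : AC.E) :
    (norm F e).ev ρ y = e.ev ρ y := by
  induction e with
  | v n => exact ev_one ρ y _
  | m a b iha ihb =>
    change (bind (norm F a) (fun t => bind (norm F b) (fun u => F.mul t u))).ev ρ y = _
    rw [ev_bind ρ y _ _ (AC.addR (b.ev ρ y)), iha]
    · rfl
    · intro t
      rw [ev_bind ρ y _ _ (AC.addL (t.ev ρ y)) (fun u => h.mul _ _), ihb]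
      rfl
  | d a iha =>
    change (bind (norm F a) (fun t => F.d t)).ev ρ y = _
    rw [ev_bind ρ y _ _ (AC.addD y) (fun u => h.d _), iha]
    rfl
  | x a b iha ihb =>
    change (bind (norm F a) (fun t => bind (norm F b) (fun u => F.x t u))).ev ρ y = _
    rw [ev_bind ρ y _ _ (AC.addS (b.ev ρ y) y), iha]
    · rfl
    · intro t
      rw [ev_bind ρ y _ _ (AC.addS2 (t.ev ρ y) y) (fun u => h.x _ _), ihb]
      rfl
  | s a b c iha ihb ihc =>
    change (bind (norm F a) (fun t => bind (norm F b) (fun u => bind (norm F c)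
      (fun w => F.asc t u w)))).ev ρ y = _
    rw [ev_bind ρ y _ _ (AC.addS (b.ev ρ y) (c.ev ρ y)), iha]
    · rfl
    · intro t
      rw [ev_bind ρ y _ _ (AC.addS2 (t.ev ρ y) (c.ev ρ y)), ihb]
      · rfl
      · intro u
        rw [ev_bind ρ y _ _ (AC.addS3 (t.ev ρ y) (u.ev ρ y)) (fun u => h.asc _ _ _), ihc]
        rfl
  | f a b c e iha ihb ihc ihe =>
    change (bind (norm F a) (fun t => bind (norm F b) (fun u => bind (norm F c)
      (fun w => bind (norm F e) (fun z => sF t u w z))))).ev ρ y = _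
    rw [ev_bind ρ y _ _ (AC.addF1 (b.ev ρ y) (c.ev ρ y) (e.ev ρ y)), iha]
    · rfl
    · intro t
      rw [ev_bind ρ y _ _ (AC.addF2 (t.ev ρ y) (c.ev ρ y) (e.ev ρ y)), ihb]
      · rfl
      · intro u
        rw [ev_bind ρ y _ _ (AC.addF3 (t.ev ρ y) (u.ev ρ y) (e.ev ρ y)), ihc]
        · rfl
        · intro w
          rw [ev_bind ρ y _ _ (AC.addF4 (t.ev ρ y) (u.ev ρ y) (w.ev ρ y))
            (fun z => ev_sF hA ρ y _ _ _ _), ihe]
          rfl
  | add a b iha ihb =>
    change (app (norm F a) (norm F b)).ev ρ y = _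
    rw [ev_app, iha, ihb]; rfl
  | sub a b iha ihb =>
    change (app (norm F a) (sm (-1) (norm F b))).ev ρ y = _
    rw [ev_app, ev_sm, iha, ihb, neg_smul, one_smul, ← sub_eq_add_neg]; rfl
  | z k a iha =>
    change (sm k (norm F a)).ev ρ y = _
    rw [ev_sm, iha]; rfl

end Ev

/-- Add a term in front, unless its coefficient vanishes modulo `n`. -/
noncomputable def cons0 (n : ℕ) (c : ℤ) (t : T) (l : P) : P :=
  @Bool.rec (fun _ => P) (.cons c t l) l (Nat.beq (Nat.mod (Int.natAbs c) n) 0)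

/-- Merge two sorted lists. -/
noncomputable def merge (n : ℕ) (p q : P) : P :=
  @P.rec (fun _ => P → P) (fun q => q)
    (fun c t l ih q => @P.rec (fun _ => P) (.cons c t l)
      (fun c' t' l' ih' =>
        @Bool.rec (fun _ => P)
          (@Bool.rec (fun _ => P) (.cons c' t' ih') (cons0 n (Int.add c c') t (ih l'))
            (teq t t'))
          (.cons c t (ih (.cons c' t' l')))
          (Nat.ble (Nat.succ t.key) t'.key)) q) p q

section Ev

variable {A : Type*} [NonUnitalNonAssocRing A] (ρ : ℕ → A) (y : A)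

theorem ev_cons0 (n : ℕ) (hn : ∀ a : A, n • a = 0) (c : ℤ) (t : T) (l : P) :
    (cons0 n c t l).ev ρ y = c • t.ev ρ y + l.ev ρ y := by
  unfold cons0
  cases h : Nat.beq (Nat.mod (Int.natAbs c) n) 0 with
  | false => rfl
  | true =>
    rw [Cert.smul_eq_zero_of_mod n hn c _ h, zero_add]

theorem merge_cons (n : ℕ) (c : ℤ) (t : T) (l : P) (c' : ℤ) (t' : T) (l' : P) :
    merge n (.cons c t l) (.cons c' t' l') =
    @Bool.rec (fun _ => P)
      (@Bool.rec (fun _ => P) (.cons c' t' (merge n (.cons c t l) l'))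
        (cons0 n (Int.add c c') t (merge n l l')) (teq t t'))
      (.cons c t (merge n l (.cons c' t' l')))
      (Nat.ble (Nat.succ t.key) t'.key) := rfl

theorem ev_merge (n : ℕ) (hn : ∀ a : A, n • a = 0) (p q : P) :
    (merge n p q).ev ρ y = p.ev ρ y + q.ev ρ y := by
  induction p generalizing q with
  | nil => exact (zero_add _).symm
  | cons c t l ih =>
    induction q with
    | nil => exact (add_zero _).symm
    | cons c' t' l' ih' =>
      rw [merge_cons]
      cases Nat.ble (Nat.succ t.key) t'.key with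
      | false =>
        cases h : teq t t' with
        | false =>
          change c' • t'.ev ρ y + (merge n (.cons c t l) l').ev ρ y = _
          rw [ih', P.ev, P.ev]; abel
        | true =>
          change (cons0 n (Int.add c c') t (merge n l l')).ev ρ y = _
          rw [ev_cons0 ρ y n hn, ih, P.ev, P.ev, ← ev_of_teq ρ y h]
          change (c + c') • _ + _ = _
          rw [add_smul]; abel
      | true =>
        change c • t.ev ρ y + (merge n l (.cons c' t' l')).ev ρ y = _
        rw [ih, P.ev, P.ev]; abel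

end Ev

/-- Lists of linear combinations. -/
inductive PP
  | nil
  | cons (p : P) (l : PP)

/-- Merge neighbours. -/
noncomputable def mergePairs (n : ℕ) (l : PP) : PP :=
  (@PP.rec (fun _ => PP × (P → PP)) (.nil, fun q => .cons q .nil)
    (fun p _ ih => (ih.2 p, fun q => .cons (merge n q p) ih.1)) l).1

/-- Value of a list of linear combinations. -/
def PP.ev {A : Type*} [NonUnitalNonAssocRing A] (ρ : ℕ → A) (y : A) : PP → A
  | .nil => 0
  | .cons p l => p.ev ρ y + PP.ev ρ y l

section Ev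

variable {A : Type*} [NonUnitalNonAssocRing A] (ρ : ℕ → A) (y : A)

theorem ev_mergePairs (n : ℕ) (hn : ∀ a : A, n • a = 0) (l : PP) :
    (mergePairs n l).ev ρ y = l.ev ρ y := by
  have h : ∀ l : PP, ((@PP.rec (fun _ => PP × (P → PP)) (.nil, fun q => .cons q .nil)
      (fun p _ ih => (ih.2 p, fun q => .cons (merge n q p) ih.1)) l).1).ev ρ y = l.ev ρ y ∧
      ∀ q, ((@PP.rec (fun _ => PP × (P → PP)) (.nil, fun q => .cons q .nil)
      (fun p _ ih => (ih.2 p, fun q => .cons (merge n q p) ih.1)) l).2 q).ev ρ y =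
        q.ev ρ y + l.ev ρ y := by
    intro l
    induction l with
    | nil => exact ⟨rfl, fun q => rfl⟩
    | cons p l ih =>
      refine ⟨?_, ?_⟩
      · rw [PP.ev]; exact ih.2 p
      · intro q
        have := ih.1
        change (merge n q p).ev ρ y + PP.ev ρ y _ = _
        rw [this, ev_merge ρ y n hn, PP.ev, add_assoc]
  exact (h l).1

end Ev

/-- Merge everything; `k` is the fuel. -/
noncomputable def mergeAll (n k : ℕ) (l : PP) : PP :=
  @Nat.rec (fun _ => PP → PP) (fun l => l)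
    (fun _ ih l => @PP.rec (fun _ => PP) .nil
      (fun p l' _ => @PP.rec (fun _ => PP) (.cons p .nil)
        (fun _ _ _ => ih (mergePairs n (.cons p l'))) l') l) k l

/-- Singletons. -/
noncomputable def singles (p : P) : PP :=
  @P.rec (fun _ => PP) .nil (fun c t _ ih => .cons (.cons c t .nil) ih) p

/-- The first list. -/
noncomputable def hd (n : ℕ) (l : PP) : P :=
  @PP.rec (fun _ => P) .nil (fun p _ ih => merge n p ih) l

section Ev

variable {A : Type*} [NonUnitalNonAssocRing A] (ρ : ℕ → A) (y : A)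

theorem ev_mergeAll (n k : ℕ) (hn : ∀ a : A, n • a = 0) (l : PP) :
    (mergeAll n k l).ev ρ y = l.ev ρ y := by
  induction k generalizing l with
  | zero => rfl
  | succ k ih =>
    cases l with
    | nil => rfl
    | cons p l =>
      cases l with
      | nil => rfl
      | cons q l =>
        change (mergeAll n k (mergePairs n (.cons p (.cons q l)))).ev ρ y = _
        rw [ih, ev_mergePairs ρ y n hn]

theorem ev_singles (p : P) : (singles p).ev ρ y = p.ev ρ y := by
  induction p with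
  | nil => rfl
  | cons c t l ih =>
    change (P.cons c t .nil).ev ρ y + (singles l).ev ρ y = _
    rw [ih, P.ev, P.ev, P.ev, add_zero]

theorem ev_hd (n : ℕ) (hn : ∀ a : A, n • a = 0) (l : PP) : (hd n l).ev ρ y = l.ev ρ y := by
  induction l with
  | nil => rfl
  | cons p l ih =>
    change (merge n p (hd n l)).ev ρ y = _
    rw [ev_merge ρ y n hn, ih, PP.ev]

end Ev

/-- Sort a linear combination. -/
noncomputable def srt (n : ℕ) (p : P) : P := hd n (mergeAll n 20 (singles p))

theorem ev_srt {A : Type*} [NonUnitalNonAssocRing A] (ρ : ℕ → A) (y : A) (n : ℕ)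
    (hn : ∀ a : A, n • a = 0) (p : P) : (srt n p).ev ρ y = p.ev ρ y := by
  rw [srt, ev_hd ρ y n hn, ev_mergeAll ρ y n 20 hn, ev_singles]

/-- Are all coefficients divisible by `n`? -/
noncomputable def allZ (n : ℕ) (p : P) : Bool :=
  @P.rec (fun _ => Bool) true (fun c _ _ ih =>
    @Bool.rec (fun _ => Bool) false ih (Nat.beq (Nat.mod (Int.natAbs c) n) 0)) p

theorem ev_allZ {A : Type*} [NonUnitalNonAssocRing A] (ρ : ℕ → A) (y : A) (n : ℕ)
    (hn : ∀ a : A, n • a = 0) (p : P) (h : allZ n p = true) : p.ev ρ y = 0 := by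
  induction p with
  | nil => rfl
  | cons c t l ih =>
    cases h2 : Nat.beq (Nat.mod (Int.natAbs c) n) 0 with
    | false =>
      exfalso
      have h' : @Bool.rec (fun _ => Bool) false (allZ n l)
        (Nat.beq (Nat.mod (Int.natAbs c) n) 0) = true := h
      rw [h2] at h'
      exact absurd h' (by simp)
    | true =>
      have h' : @Bool.rec (fun _ => Bool) false (allZ n l)
        (Nat.beq (Nat.mod (Int.natAbs c) n) 0) = true := h
      rw [h2] at h'
      rw [P.ev, ih h', Cert.smul_eq_zero_of_mod n hn c _ h2, zero_add]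


/-! ### Renumbering -/

/-- The letters in the order in which they are read. -/
noncomputable def wd (t : T) : List ℕ :=
  @T.rec (fun _ => List ℕ) (fun n => @Nat.rec (fun _ => List ℕ) [] (fun _ _ => [n]) n)
    (fun _ _ _ a b => a ++ b) (fun _ _ a => a) (fun _ _ _ a b => a ++ b)
    (fun _ _ _ _ a b c => a ++ (b ++ c)) (fun _ _ _ _ _ a b c e => a ++ (b ++ (c ++ e))) t

noncomputable def pb {α : Type} (p : T × ℕ) (f : T → ℕ → α) : α :=
  @Prod.rec T ℕ (fun _ => α) f p

/-- Renumber the letters in the order in which they are read, starting with `k`. -/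
noncomputable def relab (t : T) : ℕ → T × ℕ :=
  @T.rec (fun _ => ℕ → T × ℕ)
    (fun n k => @Nat.rec (fun _ => T × ℕ) (.v 0, k) (fun _ _ => (.v k, Nat.succ k)) n)
    (fun h _ _ ra rb k => pb (ra k) fun a k => pb (rb k) fun b k => (.m h a b, k))
    (fun h _ ra k => pb (ra k) fun a k => (.d h a, k))
    (fun h _ _ ra rb k => pb (ra k) fun a k => pb (rb k) fun b k => (.x h a b, k))
    (fun h _ _ _ ra rb rc k => pb (ra k) fun a k => pb (rb k) fun b k => pb (rc k) fun c k =>
      (.s h a b c, k))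
    (fun h _ _ _ _ ra rb rc re k => pb (ra k) fun a k => pb (rb k) fun b k => pb (rc k) fun c k =>
      pb (re k) fun e k => (.f h a b c e, k)) t

section Relab

variable {A : Type*} [NonUnitalNonAssocRing A] (ρ1 ρ2 : ℕ → A) (y : A)

/-- The list of values. -/
def Agree (k : ℕ) (w : List ℕ) : Prop := ∀ i (h : i < w.length), ρ2 (k + i) = ρ1 (w[i])

variable {ρ1 ρ2}

omit [NonUnitalNonAssocRing A] in
theorem Agree.left {k : ℕ} {w w' : List ℕ} (h : Agree ρ1 ρ2 k (w ++ w')) : Agree ρ1 ρ2 k w := by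
  intro i hi
  have := h i (by rw [List.length_append]; omega)
  rwa [List.getElem_append_left hi] at this

omit [NonUnitalNonAssocRing A] in
theorem Agree.right {k : ℕ} {w w' : List ℕ} (h : Agree ρ1 ρ2 k (w ++ w')) :
    Agree ρ1 ρ2 (k + w.length) w' := by
  intro i hi
  have := h (w.length + i) (by rw [List.length_append]; omega)
  rw [List.getElem_append_right (by omega)] at this
  rw [add_assoc, this]
  congr 2
  omega

theorem relab_spec (h0 : ρ2 0 = ρ1 0) (t : T) : ∀ k, Agree ρ1 ρ2 k (wd t) →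
    (relab t k).1.ev ρ2 y = t.ev ρ1 y ∧ (relab t k).2 = k + (wd t).length := by
  induction t with
  | v n =>
    intro k h
    cases n with
    | zero => exact ⟨h0, rfl⟩
    | succ n =>
      refine ⟨?_, rfl⟩
      have := h 0 (by change 0 < 1; omega)
      exact this
  | m h a b iha ihb =>
    intro k hk
    have hk' : Agree ρ1 ρ2 k (wd a ++ wd b) := hk
    obtain ⟨a1, a2⟩ := iha k hk'.left
    obtain ⟨b1, b2⟩ := ihb (relab a k).2 (by rw [a2]; exact hk'.right)
    refine ⟨?_, ?_⟩
    · change (relab a k).1.ev ρ2 y * (relab b (relab a k).2).1.ev ρ2 y = _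
      rw [a1, b1]; rfl
    · change (relab b (relab a k).2).2 = _ + (wd a ++ wd b).length
      rw [b2, a2, List.length_append]; omega
  | d h a iha =>
    intro k hk
    obtain ⟨a1, a2⟩ := iha k hk
    refine ⟨?_, a2⟩
    change com ((relab a k).1.ev ρ2 y) y = _
    rw [a1]; rfl
  | x h a b iha ihb =>
    intro k hk
    have hk' : Agree ρ1 ρ2 k (wd a ++ wd b) := hk
    obtain ⟨a1, a2⟩ := iha k hk'.left
    obtain ⟨b1, b2⟩ := ihb (relab a k).2 (by rw [a2]; exact hk'.right)
    refine ⟨?_, ?_⟩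
    · change asr ((relab a k).1.ev ρ2 y) ((relab b (relab a k).2).1.ev ρ2 y) y = _
      rw [a1, b1]; rfl
    · change (relab b (relab a k).2).2 = _ + (wd a ++ wd b).length
      rw [b2, a2, List.length_append]; omega
  | s h a b c iha ihb ihc =>
    intro k hk
    have hk' : Agree ρ1 ρ2 k (wd a ++ (wd b ++ wd c)) := hk
    obtain ⟨a1, a2⟩ := iha k hk'.left
    obtain ⟨b1, b2⟩ := ihb (relab a k).2 (by rw [a2]; exact hk'.right.left)
    obtain ⟨c1, c2⟩ := ihc (relab b (relab a k).2).2 (by rw [b2, a2]; exact hk'.right.right)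
    refine ⟨?_, ?_⟩
    · change asr ((relab a k).1.ev ρ2 y) ((relab b (relab a k).2).1.ev ρ2 y)
        ((relab c (relab b (relab a k).2).2).1.ev ρ2 y) = _
      rw [a1, b1, c1]; rfl
    · change (relab c (relab b (relab a k).2).2).2 = _ + (wd a ++ (wd b ++ wd c)).length
      rw [c2, b2, a2, List.length_append, List.length_append]; omega
  | f h a b c e iha ihb ihc ihe =>
    intro k hk
    have hk' : Agree ρ1 ρ2 k (wd a ++ (wd b ++ (wd c ++ wd e))) := hk
    obtain ⟨a1, a2⟩ := iha k hk'.left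
    obtain ⟨b1, b2⟩ := ihb (relab a k).2 (by rw [a2]; exact hk'.right.left)
    obtain ⟨c1, c2⟩ := ihc (relab b (relab a k).2).2 (by rw [b2, a2]; exact hk'.right.right.left)
    obtain ⟨e1, e2⟩ := ihe (relab c (relab b (relab a k).2).2).2
      (by rw [c2, b2, a2]; exact hk'.right.right.right)
    refine ⟨?_, ?_⟩
    · change kl ((relab a k).1.ev ρ2 y) ((relab b (relab a k).2).1.ev ρ2 y)
        ((relab c (relab b (relab a k).2).2).1.ev ρ2 y)
        ((relab e (relab c (relab b (relab a k).2).2).2).1.ev ρ2 y) = _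
      rw [a1, b1, c1, e1]; rfl
    · change (relab e (relab c (relab b (relab a k).2).2).2).2 =
        _ + (wd a ++ (wd b ++ (wd c ++ wd e))).length
      rw [e2, c2, b2, a2, List.length_append, List.length_append, List.length_append]; omega

end Relab

/-! ### Signs -/

/-- Sign of `(b,c,d)` as a permutation of `(x,y,z)`, `0` if it is none. -/
noncomputable def sg3 (x y z b c d : ℕ) : ℤ :=
  @Bool.rec (fun _ => ℤ)
    (@Bool.rec (fun _ => ℤ)
      (@Bool.rec (fun _ => ℤ) 0
        (@Bool.rec (fun _ => ℤ)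
          (@Bool.rec (fun _ => ℤ) 0 (@Bool.rec (fun _ => ℤ) 0 (-1) (Nat.beq d x)) (Nat.beq c y))
          (@Bool.rec (fun _ => ℤ) 0 1 (Nat.beq d y)) (Nat.beq c x))
        (Nat.beq b z))
      (@Bool.rec (fun _ => ℤ)
        (@Bool.rec (fun _ => ℤ) 0 (@Bool.rec (fun _ => ℤ) 0 1 (Nat.beq d x)) (Nat.beq c z))
        (@Bool.rec (fun _ => ℤ) 0 (-1) (Nat.beq d z)) (Nat.beq c x))
      (Nat.beq b y))
    (@Bool.rec (fun _ => ℤ)
      (@Bool.rec (fun _ => ℤ) 0 (@Bool.rec (fun _ => ℤ) 0 (-1) (Nat.beq d y)) (Nat.beq c z))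
      (@Bool.rec (fun _ => ℤ) 0 1 (Nat.beq d z)) (Nat.beq c y))
    (Nat.beq b x)

/-- Sign of `(a,b,c,d)` as a permutation of `(1,2,3,4)`, `0` if it is none. -/
noncomputable def sg4 (a b c d : ℕ) : ℤ :=
  @Bool.rec (fun _ => ℤ)
    (@Bool.rec (fun _ => ℤ)
      (@Bool.rec (fun _ => ℤ)
        (@Bool.rec (fun _ => ℤ) 0 (Int.neg (sg3 1 2 3 b c d)) (Nat.beq a 4))
        (sg3 1 2 4 b c d) (Nat.beq a 3))
      (Int.neg (sg3 1 3 4 b c d)) (Nat.beq a 2))
    (sg3 2 3 4 b c d) (Nat.beq a 1)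

/-- The alternating sum. -/
def A4 {A : Type*} [AddCommGroup A] (F : ℕ → ℕ → ℕ → ℕ → A) : A :=
  F 1 2 3 4 - F 1 2 4 3 - F 1 3 2 4 + F 1 3 4 2 + F 1 4 2 3 - F 1 4 3 2 -
    F 2 1 3 4 + F 2 1 4 3 + F 2 3 1 4 - F 2 3 4 1 - F 2 4 1 3 + F 2 4 3 1 +
    F 3 1 2 4 - F 3 1 4 2 - F 3 2 1 4 + F 3 2 4 1 + F 3 4 1 2 - F 3 4 2 1 -
    F 4 1 2 3 + F 4 1 3 2 + F 4 2 1 3 - F 4 2 3 1 - F 4 3 1 2 + F 4 3 2 1

/-- Selection. -/
def sel (a b c d : ℕ) : ℕ → ℕ
  | 0 => 0
  | 1 => a
  | 2 => b
  | 3 => c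
  | 4 => d
  | _ => 0

theorem sg3_cases {x y z b c d : ℕ} (h : sg3 x y z b c d ≠ 0) :
    (b = x ∧ c = y ∧ d = z ∧ sg3 x y z b c d = 1) ∨
    (b = x ∧ c = z ∧ d = y ∧ sg3 x y z b c d = -1) ∨
    (b = y ∧ c = x ∧ d = z ∧ sg3 x y z b c d = -1) ∨
    (b = y ∧ c = z ∧ d = x ∧ sg3 x y z b c d = 1) ∨
    (b = z ∧ c = x ∧ d = y ∧ sg3 x y z b c d = 1) ∨
    (b = z ∧ c = y ∧ d = x ∧ sg3 x y z b c d = -1) := by
  unfold sg3 at h ⊢
  cases h1 : Nat.beq b x <;> cases h2 : Nat.beq b y <;> cases h3 : Nat.beq b z <;>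
    cases h4 : Nat.beq c x <;> cases h5 : Nat.beq c y <;> cases h6 : Nat.beq c z <;>
    cases h7 : Nat.beq d x <;> cases h8 : Nat.beq d y <;> cases h9 : Nat.beq d z <;>
    simp only [h1, h2, h3, h4, h5, h6, h7, h8, h9] at h ⊢ <;>
    first
      | exact (h rfl).elim
      | exact Or.inl ⟨Nat.eq_of_beq_eq_true h1, Nat.eq_of_beq_eq_true h5,
          Nat.eq_of_beq_eq_true h9, by first | exact rfl | exact trivial⟩
      | exact Or.inr (Or.inl ⟨Nat.eq_of_beq_eq_true h1, Nat.eq_of_beq_eq_true h6,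
          Nat.eq_of_beq_eq_true h8, by first | exact rfl | exact trivial⟩)
      | exact Or.inr (Or.inr (Or.inl ⟨Nat.eq_of_beq_eq_true h2, Nat.eq_of_beq_eq_true h4,
          Nat.eq_of_beq_eq_true h9, by first | exact rfl | exact trivial⟩))
      | exact Or.inr (Or.inr (Or.inr (Or.inl ⟨Nat.eq_of_beq_eq_true h2,
          Nat.eq_of_beq_eq_true h6, Nat.eq_of_beq_eq_true h7, by first | exact rfl | exact trivial⟩)))
      | exact Or.inr (Or.inr (Or.inr (Or.inr (Or.inl ⟨Nat.eq_of_beq_eq_true h3,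
          Nat.eq_of_beq_eq_true h4, Nat.eq_of_beq_eq_true h8, by first | exact rfl | exact trivial⟩))))
      | exact Or.inr (Or.inr (Or.inr (Or.inr (Or.inr ⟨Nat.eq_of_beq_eq_true h3,
          Nat.eq_of_beq_eq_true h5, Nat.eq_of_beq_eq_true h7, by first | exact rfl | exact trivial⟩))))

theorem sg4_cases {a b c d : ℕ} (h : sg4 a b c d ≠ 0) :
    (a = 1 ∧ sg3 2 3 4 b c d ≠ 0 ∧ sg4 a b c d = sg3 2 3 4 b c d) ∨
    (a = 2 ∧ sg3 1 3 4 b c d ≠ 0 ∧ sg4 a b c d = -sg3 1 3 4 b c d) ∨
    (a = 3 ∧ sg3 1 2 4 b c d ≠ 0 ∧ sg4 a b c d = sg3 1 2 4 b c d) ∨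
    (a = 4 ∧ sg3 1 2 3 b c d ≠ 0 ∧ sg4 a b c d = -sg3 1 2 3 b c d) := by
  unfold sg4 at h ⊢
  cases h1 : Nat.beq a 1 with
  | true =>
    simp only [h1] at h
    exact Or.inl ⟨Nat.eq_of_beq_eq_true h1, h, rfl⟩
  | false =>
    cases h2 : Nat.beq a 2 with
    | true =>
      simp only [h1, h2] at h
      refine Or.inr (Or.inl ⟨Nat.eq_of_beq_eq_true h2, fun h0 => h ?_, rfl⟩)
      rw [h0]; rfl
    | false =>
      cases h3 : Nat.beq a 3 with
      | true =>
        simp only [h1, h2, h3] at h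
        exact Or.inr (Or.inr (Or.inl ⟨Nat.eq_of_beq_eq_true h3, h, rfl⟩))
      | false =>
        cases h4 : Nat.beq a 4 with
        | true =>
          simp only [h1, h2, h3, h4] at h
          refine Or.inr (Or.inr (Or.inr ⟨Nat.eq_of_beq_eq_true h4, fun h0 => h ?_, rfl⟩))
          rw [h0]; rfl
        | false =>
          simp only [h1, h2, h3, h4] at h
          exact (h rfl).elim

theorem A4_perm {A : Type*} [AddCommGroup A] (F : ℕ → ℕ → ℕ → ℕ → A) {w1 w2 w3 w4 : ℕ}
    (h : sg4 w1 w2 w3 w4 ≠ 0) :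
    A4 (fun a b c d => F (sel a b c d w1) (sel a b c d w2) (sel a b c d w3) (sel a b c d w4)) =
      sg4 w1 w2 w3 w4 • A4 F := by
  rcases sg4_cases h with ⟨rfl, h3, e⟩ | ⟨rfl, h3, e⟩ | ⟨rfl, h3, e⟩ | ⟨rfl, h3, e⟩ <;>
    rcases sg3_cases h3 with ⟨rfl, rfl, rfl, e'⟩ | ⟨rfl, rfl, rfl, e'⟩ | ⟨rfl, rfl, rfl, e'⟩ |
      ⟨rfl, rfl, rfl, e'⟩ | ⟨rfl, rfl, rfl, e'⟩ | ⟨rfl, rfl, rfl, e'⟩ <;>
    rw [e, e'] <;> simp only [A4, sel, neg_smul, one_smul, neg_neg] <;> abel

theorem A4_add {A : Type*} [AddCommGroup A] (F G : ℕ → ℕ → ℕ → ℕ → A) :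
    A4 (fun a b c d => F a b c d + G a b c d) = A4 F + A4 G := by
  simp only [A4]; abel

theorem A4_smul {A : Type*} [AddCommGroup A] (k : ℤ) (F : ℕ → ℕ → ℕ → ℕ → A) :
    A4 (fun a b c d => k • F a b c d) = k • A4 F := by
  simp only [A4, smul_add, smul_sub]

theorem A4_zero {A : Type*} [AddCommGroup A] :
    A4 (fun _ _ _ _ => (0 : A)) = 0 := by
  simp [A4]

theorem A4_nsmul {A : Type*} [AddCommGroup A] (k : ℕ) (F : ℕ → ℕ → ℕ → ℕ → A) :
    A4 (fun a b c d => k • F a b c d) = k • A4 F := by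
  simp only [A4, smul_add, smul_sub]

/-- The sign of a word. -/
noncomputable def sgW (w : List ℕ) : ℤ :=
  @List.casesOn ℕ (fun _ => ℤ) w 0 fun a w =>
    @List.casesOn ℕ (fun _ => ℤ) w 0 fun b w =>
      @List.casesOn ℕ (fun _ => ℤ) w 0 fun c w =>
        @List.casesOn ℕ (fun _ => ℤ) w 0 fun d w =>
          @List.casesOn ℕ (fun _ => ℤ) w (sg4 a b c d) fun _ _ => 0

theorem sgW_cases {w : List ℕ} (h : sgW w ≠ 0) :
    ∃ a b c d, w = [a, b, c, d] ∧ sgW w = sg4 a b c d ∧ sg4 a b c d ≠ 0 := by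
  rcases w with _ | ⟨a, _ | ⟨b, _ | ⟨c, _ | ⟨d, _ | ⟨e, w⟩⟩⟩⟩⟩
  · exact (h rfl).elim
  · exact (h rfl).elim
  · exact (h rfl).elim
  · exact (h rfl).elim
  · exact ⟨a, b, c, d, rfl, rfl, h⟩
  · exact (h rfl).elim

/-- Renumber one term. -/
noncomputable def ren (c : ℤ) (t : T) (s : ℤ) (l : P) : P :=
  @Bool.rec (fun _ => P) (.cons (Int.mul c s) (relab t 1).1 l) (.cons c t l)
    (Nat.beq (Int.natAbs s) 0)

/-- Renumber all terms. -/
noncomputable def relP (p : P) : P :=
  @P.rec (fun _ => P) .nil (fun c t _ ih => ren c t (sgW (wd t)) ih) p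

section Al

variable {A : Type*} [NonUnitalNonAssocRing A] (ρ : ℕ → A) (y : A)

/-- The alternating sum of the values. -/
def P.al (p : P) : A := A4 fun a b c d => p.ev (fun n => ρ (sel a b c d n)) y

/-- The alternating sum of the values. -/
def T.al (t : T) : A := A4 fun a b c d => t.ev (fun n => ρ (sel a b c d n)) y

theorem al_cons (c : ℤ) (t : T) (l : P) :
    (P.cons c t l).al ρ y = c • t.al ρ y + l.al ρ y := by
  unfold P.al T.al
  rw [← A4_smul, ← A4_add]
  rfl

theorem al_relab (t : T) (h : sgW (wd t) ≠ 0) :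
    t.al ρ y = sgW (wd t) • (relab t 1).1.al ρ y := by
  obtain ⟨w1, w2, w3, w4, hw, hs, h4⟩ := sgW_cases h
  have key : ∀ a b c d : ℕ, t.ev (fun n => ρ (sel a b c d n)) y =
      (relab t 1).1.ev (fun n => ρ (sel (sel a b c d w1) (sel a b c d w2) (sel a b c d w3)
        (sel a b c d w4) n)) y := by
    intro a b c d
    refine ((relab_spec (ρ1 := fun n => ρ (sel a b c d n))
      (ρ2 := fun n => ρ (sel (sel a b c d w1) (sel a b c d w2) (sel a b c d w3)
        (sel a b c d w4) n)) y rfl t 1 ?_).1).symm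
    rw [hw]
    intro i hi
    have hi' : i < 4 := hi
    rcases i with _ | _ | _ | _ | i
    · rfl
    · rfl
    · rfl
    · rfl
    · omega
  unfold T.al
  rw [hs, ← A4_perm (fun a b c d => (relab t 1).1.ev (fun n => ρ (sel a b c d n)) y) h4]
  congr 1
  funext a b c d
  exact key a b c d

theorem al_relP (p : P) : (relP p).al ρ y = p.al ρ y := by
  induction p with
  | nil => rfl
  | cons c t l ih =>
    change (ren c t (sgW (wd t)) (relP l)).al ρ y = _
    unfold ren
    cases h : Nat.beq (Int.natAbs (sgW (wd t))) 0 with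
    | true =>
      change (P.cons c t (relP l)).al ρ y = _
      rw [al_cons, al_cons, ih]
    | false =>
      change (P.cons (c * sgW (wd t)) (relab t 1).1 (relP l)).al ρ y = _
      have h0 : sgW (wd t) ≠ 0 := by
        intro h0
        rw [h0] at h
        exact absurd h (by decide)
      rw [al_cons, al_cons, ih, al_relab ρ y t h0, mul_smul]

end Al

/-- The sorted items. -/
noncomputable def itemsA (n : ℕ) (F : Fns) (l : AC.C) : PP :=
  @AC.C.rec (fun _ => PP) .nil
    (fun c i _ ih => .cons (srt n (sm c (relP (norm F i.toE)))) ih) l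

/-- The checker for alternating sums. -/
noncomputable def checkA (n k : ℕ) (e : AC.E) (cert : AC.C) : Bool :=
  allZ n (hd n (mergeAll n 20 (.cons (srt n (sm (-1) (relP (norm (fns k) e))))
    (itemsA n (fns k) cert))))

theorem al_srt_sm {A : Type*} [NonUnitalNonAssocRing A] (hA : IsAlt A) (ρ : ℕ → A) (y : A)
    (n : ℕ) (hn : ∀ a : A, n • a = 0) (k : ℕ) (c : ℤ) (e : AC.E) :
    (srt n (sm c (relP (norm (fns k) e)))).al ρ y =
      c • A4 fun a b c d => e.ev (fun n => ρ (sel a b c d n)) y := by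
  have h1 : (srt n (sm c (relP (norm (fns k) e)))).al ρ y =
      c • (relP (norm (fns k) e)).al ρ y := by
    unfold P.al
    rw [← A4_smul]
    congr 1
    funext a b c' d
    rw [ev_srt _ y n hn, ev_sm]
  rw [h1, al_relP]
  unfold P.al
  congr 2
  funext a b c' d
  exact ev_norm hA (sound_fns hA k) e

/-- **Soundness of the checker.** -/
theorem eq_zero_of_checkA {A : Type*} [NonUnitalNonAssocRing A] (hA : IsAlt A) (n k : ℕ)
    (e : AC.E) (cert : AC.C) (h : checkA n k e cert = true) (hn : ∀ a : A, n • a = 0)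
    (ρ : ℕ → A) (y : A) (N : ℕ) (hr : AC.Rel N y (ρ 0)) :
    N • (A4 fun a b c d => e.ev (fun n => ρ (sel a b c d n)) y) = 0 := by
  have h1 : ∀ ρ' : ℕ → A, (PP.cons (srt n (sm (-1) (relP (norm (fns k) e))))
      (itemsA n (fns k) cert)).ev ρ' y = 0 := by
    intro ρ'
    have h2 := ev_allZ ρ' y n hn _ h
    rw [ev_hd ρ' y n hn, ev_mergeAll ρ' y n 20 hn] at h2
    exact h2
  have h3 : ∀ l : AC.C, N • (A4 fun a b c d =>
      (itemsA n (fns k) l).ev (fun n => ρ (sel a b c d n)) y) = 0 := by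
    intro l
    induction l with
    | nil =>
      change N • (A4 fun _ _ _ _ => (0 : A)) = 0
      rw [A4_zero, smul_zero]
    | cons c i l ih =>
      change N • (A4 fun a b c' d =>
        (srt n (sm c (relP (norm (fns k) i.toE)))).ev (fun n => ρ (sel a b c' d n)) y +
        (itemsA n (fns k) l).ev (fun n => ρ (sel a b c' d n)) y) = 0
      rw [A4_add, smul_add, ih, add_zero]
      have h4 := al_srt_sm hA ρ y n hn k c i.toE
      unfold P.al at h4
      rw [h4, smul_comm, ← A4_nsmul]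
      have h5 : (fun a b c' d : ℕ => N • i.toE.ev (fun n => ρ (sel a b c' d n)) y) =
          fun _ _ _ _ => (0 : A) := by
        funext a b c' d
        exact AC.I.ev_eq_zero hA (fun n => ρ (sel a b c' d n)) y N hr i
      rw [h5, A4_zero, smul_zero]
  have h6 : (A4 fun a b c d => ((srt n (sm (-1) (relP (norm (fns k) e)))).ev
      (fun n => ρ (sel a b c d n)) y + (itemsA n (fns k) cert).ev
      (fun n => ρ (sel a b c d n)) y)) = 0 := by
    have : (fun a b c d : ℕ => ((srt n (sm (-1) (relP (norm (fns k) e)))).ev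
      (fun n => ρ (sel a b c d n)) y + (itemsA n (fns k) cert).ev
      (fun n => ρ (sel a b c d n)) y)) = fun _ _ _ _ => (0 : A) := by
      funext a b c d
      exact h1 _
    rw [this, A4_zero]
  rw [A4_add] at h6
  have h7 := al_srt_sm hA ρ y n hn k (-1) e
  unfold P.al at h7
  rw [h7, neg_smul, one_smul, neg_add_eq_zero] at h6
  rw [h6]
  exact h3 cert

end AS

end MP6489b8
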