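import Mathlib
import Pool.Agent.Lib.MP_6489b8_al.S.Check

/-!
# Certificate: the alternating sum of `[X(p,(a,b,y);c),d]` over `a`, `b`, `c`, `d` vanishes
-/

namespace MP6489b8

namespace AS

open AC

/-- Part of the certificate. -/
noncomputable def cV4_0 (l : C) : C :=
  .cons 432 (.mr (.M3 (.v 1) (.v 2)) (.m (.v 3) (.v 4))) <|
  .cons (-336) (.ml (.v 1) (.D (.G (.v 2) (.m (.v 3) (.v 0)) (.v 4)))) <|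
  .cons (-324) (.mr (.S (.v 1) (.v 2) (.m (.v 0) (.v 3))) (.v 4)) <|
  .cons (-300) (.ml (.d (.v 1)) (.D (.T (.v 2) (.v 3) (.v 4) (.v 0)))) <|
  .cons (-108) (.mr (.D (.H (.v 0) (.v 1) (.m (.v 2) (.v 3)))) (.v 4)) <|
  .cons (-396) (.A (.m (.v 1) (.x (.v 2) (.v 3))) (.m (.v 4) (.v 0))) <|
  .cons 72 (.M4 (.s (.v 1) (.v 2) (.v 3)) (.v 4)) <|
  .cons 2568 (.mr (.H (.m (.d (.v 1)) (.v 2)) (.v 3) (.v 0)) (.v 4)) <|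
  .cons (-1548) (.G (.v 1) (.m (.v 2) (.m (.v 0) (.v 3))) (.d (.v 4))) <|
  .cons 3732 (.ml (.v 1) (.A (.m (.v 2) (.d (.v 3))) (.m (.v 0) (.v 4)))) <|
  .cons 216 (.K (.v 1) (.v 2) (.d (.d (.v 3))) (.m (.v 4) (.v 0))) <|
  .cons (-132) (.mr (.Y (.v 0) (.m (.v 1) (.v 2))) (.m (.v 3) (.v 4))) <|
  .cons (-210) (.mr (.ml (.v 1) (.d (.m (.d (.v 2)) (.v 3)) (.v 0))) (.v 4)) <|
  .cons 612 (.x (.m (.v 1) (.d (.v 2))) (.m (.v 3) (.v 4)) (.v 0)) <|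
  .cons (-324) (.ml (.v 0) (.Y (.v 1) (.m (.v 2) (.m (.v 3) (.v 4))))) <|
  .cons (-252) (.mr (.d (.m (.v 0) (.v 1)) (.m (.v 2) (.v 3))) (.d (.v 4))) <|
  .cons (-24) (.ml (.v 1) (.D (.mr (.H (.v 2) (.v 3) (.v 0)) (.v 4)))) <|
  .cons 2280 (.mr (.H (.v 0) (.d (.v 1)) (.m (.v 2) (.v 3))) (.v 4)) <|
  .cons 1404 (.L (.m (.d (.v 1)) (.v 2)) (.m (.d (.v 3)) (.v 4)) (.v 0)) <|
  .cons (-1584) (.T (.v 1) (.v 2) (.d (.v 3)) (.m (.v 0) (.d (.v 4)))) <|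
  .cons 1764 (.ml (.v 1) (.H (.v 0) (.d (.v 2)) (.m (.v 3) (.v 4)))) <|
  .cons (-444) (.K (.v 1) (.m (.d (.v 2)) (.v 3)) (.v 4) (.d (.v 0))) <|
  .cons 384 (.ml (.v 1) (.d (.m (.v 2) (.x (.v 3) (.v 0))) (.v 4))) <|
  .cons 396 (.ml (.v 1) (.S (.v 2) (.v 3) (.m (.v 0) (.v 4)))) <|
  .cons 1020 (.G (.m (.d (.v 1)) (.v 2)) (.m (.v 0) (.v 3)) (.v 4)) <|
  .cons 2658 (.T (.v 1) (.m (.d (.v 2)) (.v 0)) (.v 3) (.d (.v 4))) <|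
  .cons 1044 (.T (.v 1) (.d (.v 2)) (.d (.v 3)) (.m (.v 0) (.v 4))) <|
  .cons (-576) (.H (.v 0) (.v 1) (.m (.d (.v 2)) (.m (.v 3) (.v 4)))) <|
  .cons (-364) (.mr (.d (.m (.v 0) (.v 1)) (.m (.d (.v 2)) (.v 3))) (.v 4)) <|
  .cons 60 (.ml (.v 1) (.D (.mr (.d (.m (.v 2) (.v 0)) (.v 3)) (.v 4)))) <|
  .cons (-1836) (.H (.v 0) (.v 1) (.s (.v 2) (.v 3) (.d (.v 4)))) <|
  .cons (-216) (.x (.m (.v 1) (.v 2)) (.m (.d (.v 3)) (.v 4)) (.v 0)) <|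
  .cons (-36) (.a (.m (.v 1) (.v 2)) (.d (.d (.v 3))) (.v 4) (.v 0)) <|
  .cons (-12) (.d (.m (.v 0) (.v 1)) (.m (.v 2) (.x (.v 3) (.v 4)))) <|
  .cons 242 (.ml (.v 1) (.d (.m (.d (.v 2)) (.v 0)) (.m (.v 3) (.v 4)))) <|
  .cons (-252) (.mr (.S (.v 1) (.m (.v 2) (.v 3)) (.v 0)) (.v 4)) <|
  .cons 114 (.ml (.v 0) (.d (.m (.v 1) (.m (.v 2) (.v 3))) (.d (.v 4)))) <|
  .cons (-144) (.d (.m (.v 1) (.v 2)) (.s (.v 3) (.v 4) (.d (.v 0)))) <|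
  .cons (-54) (.Y (.m (.v 1) (.m (.v 0) (.m (.v 2) (.v 3)))) (.v 4)) <|
  .cons (-36) (.X (.mr (.d (.m (.v 1) (.v 2)) (.v 0)) (.v 3)) (.v 4)) <|
  .cons (-324) (.H (.m (.v 1) (.v 2)) (.v 3) (.m (.d (.v 4)) (.v 0))) <|
  .cons 342 (.ml (.v 0) (.d (.m (.d (.v 1)) (.v 2)) (.m (.v 3) (.v 4)))) <|
  .cons (-252) (.mr (.mr (.Y (.m (.v 1) (.v 2)) (.v 3)) (.v 4)) (.v 0)) <|
  .cons 4968 (.G (.m (.v 1) (.v 2)) (.m (.v 0) (.d (.v 3))) (.v 4)) <|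
  .cons 1128 (.T (.m (.d (.v 1)) (.v 2)) (.v 3) (.d (.v 4)) (.v 0)) <|
  .cons (-534) (.As (.d (.m (.v 1) (.v 2)) (.v 3)) (.d (.v 4)) (.v 0)) <|
  .cons 432 (.H (.m (.v 1) (.d (.v 2))) (.v 3) (.m (.v 4) (.v 0))) <|
  .cons (-445) (.mr (.mr (.d (.m (.v 1) (.d (.v 2))) (.v 3)) (.v 4)) (.v 0)) <|
  .cons 12 (.d (.m (.v 0) (.m (.v 1) (.v 2))) (.x (.v 3) (.v 4))) <|
  .cons 538 (.ml (.v 1) (.d (.m (.v 2) (.m (.v 3) (.v 0))) (.d (.v 4)))) <|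
  .cons 360 (.ml (.m (.v 1) (.v 2)) (.Y (.v 3) (.m (.v 0) (.v 4)))) <|
  .cons 1134 (.ml (.v 1) (.G (.v 2) (.m (.v 3) (.d (.v 4))) (.v 0))) <|
  .cons 288 (.G (.v 1) (.m (.v 0) (.v 2)) (.m (.d (.v 3)) (.v 4))) <|
  .cons (-2448) (.R (.v 1) (.m (.v 2) (.d (.d (.v 3)))) (.m (.v 0) (.v 4))) <|
  .cons (-360) (.mr (.ml (.v 1) (.d (.m (.v 2) (.d (.v 3))) (.v 0))) (.v 4)) <|
  .cons 421 (.mr (.d (.m (.v 1) (.d (.v 2))) (.v 3)) (.m (.v 4) (.v 0))) <|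
  .cons (-1152) (.A (.m (.v 1) (.v 2)) (.m (.v 3) (.x (.v 4) (.v 0)))) <|
  .cons (-468) (.K (.v 1) (.d (.v 2)) (.v 3) (.m (.d (.v 4)) (.v 0))) <|
  .cons (-702) (.ml (.m (.v 1) (.v 0)) (.Y (.m (.v 2) (.v 3)) (.v 4))) <|
  .cons 216 (.ml (.v 1) (.Y (.m (.v 2) (.m (.v 0) (.v 3))) (.v 4))) <|
  l

/-- Part of the certificate. -/
noncomputable def cV4_1 (l : C) : C :=
  .cons (-1212) (.G (.v 1) (.m (.v 0) (.m (.v 2) (.d (.v 3)))) (.v 4)) <|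
  .cons (-96) (.mr (.ml (.v 1) (.D (.d (.m (.v 2) (.v 0)) (.v 3)))) (.v 4)) <|
  .cons (-702) (.T (.m (.v 1) (.v 2)) (.d (.v 3)) (.v 0) (.d (.v 4))) <|
  .cons 612 (.mr (.H (.v 1) (.m (.d (.v 2)) (.v 3)) (.v 0)) (.v 4)) <|
  .cons 630 (.ml (.v 0) (.ml (.v 1) (.Y (.m (.v 2) (.v 3)) (.v 4)))) <|
  .cons (-216) (.a (.m (.v 0) (.d (.d (.v 1)))) (.v 2) (.v 3) (.v 4)) <|
  .cons 240 (.X (.d (.m (.v 1) (.v 2)) (.v 0)) (.m (.v 3) (.v 4))) <|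
  .cons (-870) (.H (.m (.v 1) (.v 2)) (.v 3) (.m (.v 0) (.d (.v 4)))) <|
  .cons (-72) (.H (.v 0) (.m (.v 1) (.v 2)) (.m (.d (.v 3)) (.v 4))) <|
  .cons 36 (.x (.m (.v 1) (.v 2)) (.m (.d (.v 0)) (.v 3)) (.v 4)) <|
  .cons 36 (.G (.v 1) (.m (.d (.v 0)) (.m (.v 2) (.v 3))) (.v 4)) <|
  .cons 684 (.mr (.A (.m (.d (.v 1)) (.v 2)) (.m (.v 0) (.v 3))) (.v 4)) <|
  .cons (-822) (.H (.v 1) (.m (.v 2) (.v 3)) (.m (.v 0) (.d (.v 4)))) <|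
  .cons (-636) (.ml (.v 0) (.mr (.H (.v 1) (.v 2) (.d (.v 3))) (.v 4))) <|
  .cons (-1728) (.T (.v 1) (.v 2) (.d (.x (.v 3) (.v 4))) (.v 0)) <|
  .cons (-133) (.ml (.v 1) (.ml (.v 2) (.d (.m (.v 3) (.v 0)) (.d (.v 4))))) <|
  .cons 1074 (.T (.v 1) (.m (.v 2) (.d (.v 3))) (.d (.v 4)) (.v 0)) <|
  .cons 252 (.d (.m (.v 0) (.m (.v 1) (.d (.v 2)))) (.m (.v 3) (.v 4))) <|
  .cons 650 (.ml (.v 0) (.mr (.d (.m (.v 1) (.v 2)) (.d (.v 3))) (.v 4))) <|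
  .cons 1152 (.a (.m (.v 1) (.v 2)) (.d (.v 0)) (.v 3) (.d (.v 4))) <|
  .cons (-660) (.T (.m (.d (.d (.v 1))) (.v 2)) (.v 3) (.v 4) (.v 0)) <|
  .cons (-656) (.ml (.v 1) (.d (.m (.d (.v 2)) (.v 3)) (.m (.v 4) (.v 0)))) <|
  .cons 156 (.d (.m (.d (.v 1)) (.m (.v 0) (.v 2))) (.m (.v 3) (.v 4))) <|
  .cons (-936) (.H (.m (.v 1) (.v 0)) (.d (.v 2)) (.m (.v 3) (.v 4))) <|
  .cons 516 (.ml (.m (.v 0) (.v 1)) (.H (.v 2) (.v 3) (.d (.v 4)))) <|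
  .cons (-252) (.As (.D (.d (.m (.v 1) (.v 2)) (.v 0))) (.v 3) (.v 4)) <|
  .cons 960 (.G (.d (.v 1)) (.m (.v 2) (.m (.v 3) (.v 0))) (.v 4)) <|
  .cons (-36) (.ml (.v 0) (.d (.m (.v 1) (.v 2)) (.m (.d (.v 3)) (.v 4)))) <|
  .cons (-352) (.ml (.x (.v 1) (.v 2)) (.d (.m (.v 3) (.v 0)) (.v 4))) <|
  .cons (-2127) (.As (.d (.m (.v 1) (.d (.v 2))) (.v 3)) (.v 4) (.v 0)) <|
  .cons (-1050) (.ml (.v 1) (.T (.v 2) (.v 3) (.d (.v 4)) (.d (.v 0)))) <|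
  .cons (-468) (.mr (.d (.m (.x (.v 1) (.v 2)) (.v 3)) (.v 0)) (.v 4)) <|
  .cons 225 (.ml (.v 1) (.ml (.v 2) (.S (.v 3) (.v 4) (.v 0)))) <|
  .cons 192 (.ml (.v 0) (.D (.H (.v 1) (.v 2) (.m (.v 3) (.v 4))))) <|
  .cons (-642) (.mr (.Y (.m (.v 1) (.v 2)) (.v 0)) (.m (.v 3) (.v 4))) <|
  .cons 552 (.mr (.ml (.v 1) (.d (.m (.v 2) (.v 3)) (.d (.v 4)))) (.v 0)) <|
  .cons 16 (.ml (.v 1) (.d (.m (.v 2) (.d (.v 3))) (.m (.v 4) (.v 0)))) <|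
  .cons 64 (.ml (.v 1) (.d (.m (.v 2) (.v 0)) (.m (.d (.v 3)) (.v 4)))) <|
  .cons (-216) (.d (.m (.v 1) (.m (.v 0) (.d (.v 2)))) (.m (.v 3) (.v 4))) <|
  .cons 372 (.d (.m (.v 0) (.m (.x (.v 1) (.v 2)) (.v 3))) (.v 4)) <|
  .cons 576 (.T (.d (.d (.v 1))) (.m (.v 0) (.v 2)) (.v 3) (.v 4)) <|
  .cons 252 (.H (.v 1) (.x (.v 2) (.v 3)) (.m (.v 4) (.v 0))) <|
  .cons (-516) (.ml (.v 1) (.H (.v 2) (.v 3) (.m (.v 0) (.d (.v 4))))) <|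
  .cons 3492 (.R (.v 1) (.m (.d (.v 2)) (.v 3)) (.m (.v 0) (.d (.v 4)))) <|
  .cons (-1284) (.ml (.v 1) (.T (.v 2) (.d (.v 3)) (.d (.v 4)) (.v 0))) <|
  .cons (-6210) (.ml (.v 1) (.H (.v 0) (.v 2) (.m (.v 3) (.d (.v 4))))) <|
  .cons 240 (.mr (.Y (.m (.v 0) (.m (.v 1) (.v 2))) (.v 3)) (.v 4)) <|
  .cons (-228) (.T (.m (.v 1) (.v 2)) (.d (.v 3)) (.v 4) (.d (.v 0))) <|
  .cons 192 (.ml (.v 0) (.d (.m (.v 1) (.v 2)) (.m (.v 3) (.d (.v 4))))) <|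
  .cons 4578 (.T (.d (.v 1)) (.m (.v 2) (.v 3)) (.d (.v 4)) (.v 0)) <|
  .cons (-696) (.T (.d (.v 1)) (.m (.v 2) (.v 3)) (.v 4) (.d (.v 0))) <|
  .cons (-1107) (.ml (.v 1) (.ml (.v 2) (.Y (.v 3) (.m (.v 0) (.v 4))))) <|
  .cons 1728 (.H (.d (.v 1)) (.s (.v 2) (.v 3) (.v 4)) (.v 0)) <|
  .cons (-328) (.mr (.d (.m (.v 1) (.v 0)) (.m (.d (.v 2)) (.v 3))) (.v 4)) <|
  .cons 1044 (.H (.m (.v 0) (.v 1)) (.v 2) (.m (.v 3) (.d (.v 4)))) <|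
  .cons 336 (.mr (.Y (.v 1) (.m (.v 0) (.m (.v 2) (.v 3)))) (.v 4)) <|
  .cons (-954) (.mr (.G (.v 1) (.m (.v 2) (.v 0)) (.v 3)) (.d (.v 4))) <|
  .cons 228 (.D (.T (.m (.d (.v 1)) (.v 2)) (.v 3) (.v 4) (.v 0))) <|
  .cons (-1476) (.K (.v 1) (.m (.v 2) (.v 3)) (.d (.d (.v 4))) (.v 0)) <|
  .cons 1452 (.K (.v 1) (.m (.v 2) (.v 3)) (.d (.v 4)) (.d (.v 0))) <|
  l

/-- Part of the certificate. -/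
noncomputable def cV4_2 (l : C) : C :=
  .cons 702 (.mr (.ml (.v 0) (.Y (.m (.v 1) (.v 2)) (.v 3))) (.v 4)) <|
  .cons (-132) (.mr (.d (.m (.v 1) (.m (.v 2) (.v 0))) (.d (.v 3))) (.v 4)) <|
  .cons (-324) (.ml (.m (.v 1) (.v 2)) (.S (.v 3) (.v 4) (.v 0))) <|
  .cons (-376) (.ml (.v 1) (.X (.d (.m (.v 2) (.v 0)) (.v 3)) (.v 4))) <|
  .cons (-1728) (.As (.Y (.m (.v 1) (.v 2)) (.v 3)) (.v 4) (.v 0)) <|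
  .cons (-120) (.d (.m (.v 0) (.m (.d (.v 1)) (.v 2))) (.m (.v 3) (.v 4))) <|
  .cons 198 (.ml (.v 1) (.mr (.Y (.m (.v 2) (.v 0)) (.v 3)) (.v 4))) <|
  .cons (-2484) (.H (.v 0) (.v 1) (.m (.v 2) (.m (.v 3) (.d (.v 4))))) <|
  .cons (-156) (.mr (.mr (.d (.m (.v 1) (.v 2)) (.v 3)) (.d (.v 4))) (.v 0)) <|
  .cons 444 (.T (.v 1) (.m (.v 2) (.d (.v 3))) (.v 4) (.d (.v 0))) <|
  .cons 204 (.G (.m (.d (.v 1)) (.m (.v 2) (.v 3))) (.v 0) (.v 4)) <|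
  .cons 700 (.mr (.d (.m (.v 0) (.d (.v 1))) (.m (.v 2) (.v 3))) (.v 4)) <|
  .cons (-3510) (.ml (.v 1) (.H (.d (.v 2)) (.v 3) (.m (.v 0) (.v 4)))) <|
  .cons 1014 (.mr (.mr (.d (.m (.d (.v 1)) (.v 2)) (.v 0)) (.v 3)) (.v 4)) <|
  .cons 72 (.D (.mr (.H (.v 0) (.v 1) (.m (.v 2) (.v 3))) (.v 4))) <|
  .cons 570 (.ml (.v 1) (.G (.v 2) (.m (.v 3) (.d (.v 0))) (.v 4))) <|
  .cons (-688) (.ml (.v 1) (.mr (.d (.m (.v 2) (.v 0)) (.d (.v 3))) (.v 4))) <|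
  .cons 2088 (.H (.v 1) (.m (.v 2) (.v 3)) (.x (.v 4) (.v 0))) <|
  .cons (-1554) (.mr (.d (.m (.d (.v 1)) (.v 2)) (.v 0)) (.m (.v 3) (.v 4))) <|
  .cons 288 (.A (.m (.d (.v 1)) (.v 2)) (.m (.v 3) (.m (.v 0) (.v 4)))) <|
  .cons 60 (.ml (.v 1) (.mr (.D (.H (.v 2) (.v 3) (.v 0))) (.v 4))) <|
  .cons (-744) (.mr (.X (.d (.m (.v 1) (.v 2)) (.v 0)) (.v 3)) (.v 4)) <|
  .cons (-702) (.d (.m (.v 1) (.m (.v 0) (.m (.v 2) (.v 3)))) (.d (.v 4))) <|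
  .cons 720 (.mr (.T (.v 1) (.v 2) (.d (.v 3)) (.d (.v 0))) (.v 4)) <|
  .cons 192 (.ml (.v 1) (.d (.m (.v 2) (.v 0)) (.x (.v 3) (.v 4)))) <|
  .cons 1908 (.mr (.H (.v 1) (.v 2) (.x (.v 3) (.v 0))) (.v 4)) <|
  .cons (-756) (.G (.v 1) (.m (.d (.v 2)) (.v 0)) (.m (.v 3) (.v 4))) <|
  .cons (-6930) (.G (.m (.v 1) (.d (.v 2))) (.m (.v 0) (.v 3)) (.v 4)) <|
  .cons 1776 (.d (.m (.v 1) (.v 2)) (.s (.v 3) (.v 0) (.d (.v 4)))) <|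
  .cons 72 (.A (.m (.d (.v 1)) (.v 2)) (.m (.v 3) (.m (.v 4) (.v 0)))) <|
  .cons (-504) (.H (.s (.v 1) (.v 2) (.v 3)) (.d (.v 4)) (.v 0)) <|
  .cons (-300) (.X (.ml (.v 1) (.H (.v 2) (.v 3) (.v 0))) (.v 4)) <|
  .cons 504 (.H (.d (.v 1)) (.m (.v 2) (.m (.v 3) (.v 4))) (.v 0)) <|
  .cons (-936) (.ml (.d (.v 1)) (.G (.v 2) (.m (.v 3) (.v 0)) (.v 4))) <|
  .cons (-1500) (.T (.v 1) (.m (.v 0) (.v 2)) (.d (.v 3)) (.d (.v 4))) <|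
  .cons 864 (.mr (.D (.H (.v 1) (.v 2) (.v 0))) (.m (.v 3) (.v 4))) <|
  .cons (-324) (.mr (.D (.mr (.H (.v 1) (.v 2) (.v 0)) (.v 3))) (.v 4)) <|
  .cons (-972) (.ml (.d (.v 1)) (.ml (.v 2) (.H (.v 3) (.v 4) (.v 0)))) <|
  .cons (-216) (.T (.m (.v 1) (.v 2)) (.d (.d (.v 3))) (.v 0) (.v 4)) <|
  .cons 360 (.D (.T (.v 1) (.d (.v 2)) (.m (.v 3) (.v 4)) (.v 0))) <|
  .cons 108 (.mr (.mr (.H (.v 1) (.v 2) (.v 0)) (.v 3)) (.d (.v 4))) <|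
  .cons 36 (.mr (.D (.ml (.v 1) (.d (.m (.v 2) (.v 0)) (.v 3)))) (.v 4)) <|
  .cons 1128 (.ml (.v 1) (.A (.m (.v 2) (.v 3)) (.m (.d (.v 4)) (.v 0)))) <|
  .cons 160 (.mr (.d (.m (.v 0) (.m (.v 1) (.v 2))) (.d (.v 3))) (.v 4)) <|
  .cons (-12) (.d (.m (.x (.v 1) (.v 2)) (.v 0)) (.m (.v 3) (.v 4))) <|
  .cons (-522) (.L (.m (.v 1) (.v 2)) (.m (.d (.v 3)) (.d (.v 4))) (.v 0)) <|
  .cons (-54) (.ml (.v 1) (.mr (.H (.d (.v 2)) (.v 3) (.v 0)) (.v 4))) <|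
  .cons (-1296) (.G (.d (.v 1)) (.m (.v 0) (.v 2)) (.m (.v 3) (.v 4))) <|
  .cons (-30) (.ml (.v 0) (.G (.v 1) (.m (.v 2) (.v 3)) (.d (.v 4)))) <|
  .cons (-588) (.d (.m (.d (.v 1)) (.v 2)) (.m (.v 3) (.m (.v 4) (.v 0)))) <|
  .cons (-1584) (.ml (.m (.v 1) (.v 0)) (.H (.v 2) (.v 3) (.d (.v 4)))) <|
  .cons 228 (.ml (.d (.v 1)) (.d (.m (.v 2) (.v 3)) (.m (.v 4) (.v 0)))) <|
  .cons (-1410) (.mr (.A (.m (.v 1) (.v 2)) (.m (.v 0) (.d (.v 3)))) (.v 4)) <|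
  .cons (-108) (.X (.mr (.d (.m (.v 1) (.v 0)) (.v 2)) (.v 3)) (.v 4)) <|
  .cons 1464 (.mr (.T (.v 1) (.d (.v 2)) (.d (.v 3)) (.v 0)) (.v 4)) <|
  .cons (-288) (.H (.d (.v 1)) (.v 2) (.m (.v 3) (.m (.v 4) (.v 0)))) <|
  .cons (-264) (.mr (.d (.m (.d (.v 1)) (.v 2)) (.m (.v 3) (.v 0))) (.v 4)) <|
  .cons (-432) (.T (.m (.v 1) (.d (.d (.v 2)))) (.v 3) (.v 0) (.v 4)) <|
  .cons 876 (.ml (.v 0) (.T (.v 1) (.v 2) (.v 3) (.d (.d (.v 4))))) <|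
  .cons (-252) (.a (.m (.v 1) (.v 0)) (.v 2) (.v 3) (.d (.d (.v 4)))) <|
  l

/-- Part of the certificate. -/
noncomputable def cV4_3 (l : C) : C :=
  .cons 882 (.mr (.H (.d (.v 1)) (.v 2) (.v 0)) (.m (.v 3) (.v 4))) <|
  .cons 252 (.mr (.H (.v 0) (.v 1) (.m (.v 2) (.v 3))) (.d (.v 4))) <|
  .cons 192 (.d (.m (.v 1) (.v 0)) (.m (.d (.v 2)) (.m (.v 3) (.v 4)))) <|
  .cons (-120) (.ml (.v 1) (.ml (.v 2) (.d (.m (.d (.v 3)) (.v 4)) (.v 0)))) <|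
  .cons (-1116) (.mr (.H (.v 1) (.d (.v 2)) (.m (.v 0) (.v 3))) (.v 4)) <|
  .cons (-280) (.X (.ml (.v 1) (.d (.m (.v 2) (.v 3)) (.v 0))) (.v 4)) <|
  .cons 144 (.mr (.H (.v 1) (.d (.v 2)) (.m (.v 3) (.v 4))) (.v 0)) <|
  .cons (-288) (.ml (.v 1) (.Y (.v 2) (.m (.v 0) (.m (.v 3) (.v 4))))) <|
  .cons (-224) (.mr (.ml (.v 1) (.d (.m (.v 2) (.v 0)) (.v 3))) (.d (.v 4))) <|
  .cons 2124 (.G (.v 1) (.m (.v 2) (.v 3)) (.m (.v 0) (.d (.v 4)))) <|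
  .cons (-156) (.ml (.d (.v 1)) (.mr (.d (.m (.v 2) (.v 3)) (.v 4)) (.v 0))) <|
  .cons (-72) (.X (.d (.m (.v 1) (.v 0)) (.v 2)) (.m (.v 3) (.v 4))) <|
  .cons (-180) (.L (.x (.v 1) (.v 2)) (.x (.v 3) (.v 4)) (.v 0)) <|
  .cons (-432) (.S (.v 1) (.v 2) (.m (.v 3) (.m (.v 0) (.v 4)))) <|
  .cons (-144) (.Q (.v 1) (.v 2) (.s (.v 3) (.v 4) (.v 0))) <|
  .cons 5421 (.ml (.v 1) (.ml (.v 2) (.H (.v 3) (.d (.v 4)) (.v 0)))) <|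
  .cons (-1614) (.mr (.H (.m (.v 1) (.v 2)) (.v 3) (.v 0)) (.d (.v 4))) <|
  .cons 66 (.mr (.d (.m (.v 1) (.v 2)) (.d (.v 0))) (.m (.v 3) (.v 4))) <|
  .cons (-36) (.Q (.s (.v 1) (.v 2) (.v 3)) (.v 4) (.v 0)) <|
  .cons 216 (.mr (.mr (.M2 (.v 1)) (.m (.v 2) (.v 3))) (.v 4)) <|
  .cons 612 (.mr (.d (.m (.v 1) (.v 2)) (.x (.v 3) (.v 0))) (.v 4)) <|
  .cons (-1374) (.mr (.H (.v 1) (.m (.v 2) (.v 3)) (.v 0)) (.d (.v 4))) <|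
  .cons 300 (.d (.m (.v 1) (.m (.x (.v 2) (.v 3)) (.v 0))) (.v 4)) <|
  .cons 1116 (.ml (.d (.v 1)) (.H (.v 2) (.v 3) (.m (.v 4) (.v 0)))) <|
  .cons 84 (.d (.m (.v 0) (.m (.v 1) (.x (.v 2) (.v 3)))) (.v 4)) <|
  .cons 1872 (.G (.m (.v 1) (.m (.v 2) (.v 3))) (.v 0) (.d (.v 4))) <|
  .cons (-384) (.ml (.v 0) (.d (.m (.v 1) (.x (.v 2) (.v 3))) (.v 4))) <|
  .cons 252 (.mr (.X (.d (.m (.v 1) (.v 2)) (.v 3)) (.v 4)) (.v 0)) <|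
  .cons 216 (.ml (.s (.v 1) (.v 2) (.v 3)) (.M1 (.v 4))) <|
  .cons (-4956) (.ml (.v 1) (.H (.d (.v 2)) (.v 3) (.m (.v 4) (.v 0)))) <|
  .cons (-216) (.mr (.mr (.M2 (.v 1)) (.v 2)) (.m (.v 3) (.v 4))) <|
  .cons 216 (.As (.M4 (.v 1) (.v 2)) (.v 3) (.v 4)) <|
  .cons (-216) (.As (.M1 (.m (.v 1) (.v 2))) (.v 3) (.v 4)) <|
  l

/-- The certificate (213 items, denominator 216). -/
noncomputable def cV4 : C :=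
  cV4_0 <|
  cV4_1 <|
  cV4_2 <|
  cV4_3 .nil

theorem cV4_ok : checkA 0 30 (.z 216 (.cm (.X5 (.v 0) (.x (.v 1) (.v 2)) (.v 3)) (.v 4))) cV4 =
    true := by decide +kernel

end AS

end MP6489b8
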